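import Pool.Agent.J4H50.YJ.Cy

set_option autoImplicit false
set_option linter.unusedSectionVars false
set_option linter.unusedVariables false

/-! # Project YJ, (P5): the zeta function of a tree of blow-ups as the generating function of the volumes

`JJ M v h a₀ n₀ a₁ n₁ e B` is the sum of (P5), for the arcs in the cylinder `B`. The arcs with
`x 0 (0) = x 1 (0) = 0` are the disjoint union of the sets `Up i` (`ord (x 0) = i < ord (x 1)`), `Di i`
(both orders are `i`), `Dn i` (`ord (x 1) = i < ord (x 0)`), for `1 ≤ i ≤ e`, and of the set `Bi e` (both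
orders are larger than `e`). For the exchange of the coordinates, (RE) is used for all the cylinders. -/

namespace Pool.Agent.J4H2.YJ

open MvPolynomial
open Pool.Agent.W428.MOT
open Pool.Agent.J4H50.YO (RedZeta)
open Pool.Agent.W574.MO (mf qq geo mf_pos mf_zero geo_mul)
open Pool.Agent.W574.SM (chart chartI)
open Pool.Agent.J4H50.YJ

section Mf

variable {R : Type} [CommRing R] (u : Rˣ)

theorem mf_coeff {a : ℕ} (ha : 1 ≤ a) (n k : ℕ) :
    PowerSeries.coeff k (mf u a n) =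
      if a ∣ k ∧ 1 ≤ k then ((u : R) - 1) * ((u⁻¹ : Rˣ) : R) ^ (n * (k / a)) else 0 := by
  set G : PowerSeries R := PowerSeries.mk fun k =>
    if a ∣ k ∧ 1 ≤ k then ((u : R) - 1) * ((u⁻¹ : Rˣ) : R) ^ (n * (k / a)) else 0 with hG
  have h1 : (1 - qq u a n) * G = PowerSeries.C ((u : R) - 1) * qq u a n := by
    ext k
    rw [sub_mul, one_mul, map_sub, qq, mul_assoc, PowerSeries.coeff_C_mul,
      PowerSeries.coeff_X_pow_mul', PowerSeries.coeff_C_mul, PowerSeries.coeff_C_mul,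
      PowerSeries.coeff_X_pow, hG]
    simp only [PowerSeries.coeff_mk, Units.val_pow_eq_pow_val]
    rcases lt_trichotomy k a with h | h | h
    · rw [if_neg (show ¬ (a ∣ k ∧ 1 ≤ k) from fun h' => absurd (Nat.le_of_dvd h'.2 h'.1) (by omega)),
        if_neg (show ¬ a ≤ k by omega), if_neg (show ¬ k = a by omega)]
      simp
    · subst h
      rw [if_pos ⟨dvd_rfl, ha⟩, if_pos le_rfl, if_pos rfl, Nat.sub_self,
        if_neg (show ¬ (k ∣ 0 ∧ 1 ≤ 0) by omega), Nat.div_self (by omega)]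
      simp
    · rw [if_pos (show a ≤ k by omega), if_neg (show ¬ k = a by omega)]
      by_cases hd : a ∣ k
      · rw [if_pos ⟨hd, by omega⟩, if_pos ⟨Nat.dvd_sub hd dvd_rfl, by omega⟩]
        obtain ⟨q, rfl⟩ := hd
        have hq : 1 ≤ q := by
          rcases Nat.eq_zero_or_pos q with hq | hq
          · subst hq
            omega
          · exact hq
        obtain ⟨q, rfl⟩ := Nat.exists_eq_add_of_le' hq
        rw [show a * (q + 1) - a = a * q by rw [mul_add, mul_one]; omega,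
          Nat.mul_div_cancel_left _ (by omega), Nat.mul_div_cancel_left _ (by omega)]
        ring
      · rw [if_neg (fun h' => hd h'.1), if_neg (fun h' => hd (by
          have := Nat.dvd_add h'.1 (dvd_refl a)
          rwa [Nat.sub_add_cancel (by omega)] at this))]
        simp
  have h2 : mf u a n = G := by
    rw [mf_pos u ha, ← h1]
    calc (1 - qq u a n) * G * geo u a n = G * ((1 - qq u a n) * geo u a n) := by ring
      _ = G := by rw [geo_mul u ha, mul_one]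
  rw [h2, hG, PowerSeries.coeff_mk]

theorem v_mul_u_sub : ((u⁻¹ : Rˣ) : R) * ((u : R) - 1) = 1 - ((u⁻¹ : Rˣ) : R) := by
  rw [mul_sub, Units.inv_mul, mul_one]

/-- the coefficients of the local factors as sums over the orders -/
theorem mf_coeff_sum (a n e k : ℕ) (hn : 1 ≤ n) (hk : k ≤ e) :
    ((u⁻¹ : Rˣ) : R) * PowerSeries.coeff k (mf u a n) = ∑ c ∈ Ix a e,
      if a * ix c = k then ((u⁻¹ : Rˣ) : R) ^ ((n - 1) * ix c) * mo ((u⁻¹ : Rˣ) : R) c else 0 := by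
  rcases Nat.eq_zero_or_pos a with ha | ha
  · subst ha
    rw [mf_zero, Ix, if_pos rfl, Finset.sum_singleton]
    simp only [ix, Option.getD_none, mul_zero, mo, pow_zero, one_mul, PowerSeries.coeff_one]
    by_cases h : k = 0
    · rw [if_pos h, if_pos h.symm, mul_one]
    · rw [if_neg h, if_neg (fun h' => h h'.symm), mul_zero]
  · rw [mf_coeff u ha, show Ix a e = (Finset.Icc 1 e).map ⟨some, Option.some_injective ℕ⟩ from
      if_neg (by omega), Finset.sum_map]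
    simp only [Function.Embedding.coeFn_mk, ix, Option.getD_some, mo]
    have hterm : ∀ i : ℕ, ((u⁻¹ : Rˣ) : R) ^ ((n - 1) * i) * ((1 - ((u⁻¹ : Rˣ) : R)) *
        ((u⁻¹ : Rˣ) : R) ^ i) = (1 - ((u⁻¹ : Rˣ) : R)) * ((u⁻¹ : Rˣ) : R) ^ (n * i) := by
      intro i
      obtain ⟨n, rfl⟩ := Nat.exists_eq_add_of_le' hn
      rw [Nat.add_sub_cancel, show (n + 1) * i = n * i + i by ring, pow_add]
      ring
    simp only [hterm]
    by_cases h : a ∣ k ∧ 1 ≤ k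
    · rw [if_pos h]
      obtain ⟨⟨q, rfl⟩, h1⟩ := h
      have hq : 1 ≤ q := by
        rcases Nat.eq_zero_or_pos q with hq | hq
        · subst hq
          omega
        · exact hq
      rw [Finset.sum_eq_single q, if_pos rfl, Nat.mul_div_cancel_left _ (by omega), ← mul_assoc,
        v_mul_u_sub]
      · intro b _ hb
        rw [if_neg (fun h' => hb (Nat.eq_of_mul_eq_mul_left ha h'))]
      · intro hq'
        exact absurd (Finset.mem_Icc.2 ⟨hq, le_trans (Nat.le_mul_of_pos_left q ha) hk⟩) hq'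
    · rw [if_neg h, mul_zero]
      symm
      refine Finset.sum_eq_zero fun i hi => if_neg fun h' => h ⟨⟨i, h'.symm⟩, ?_⟩
      rw [← h']
      exact Nat.mul_pos ha (Finset.mem_Icc.1 hi).1

/-- the local factor of a smooth branch -/
theorem mf_one_coeff (l : ℕ) : ((u⁻¹ : Rˣ) : R) * PowerSeries.coeff l (mf u 1 1) =
    if l = 0 then 0 else (1 - ((u⁻¹ : Rˣ) : R)) * ((u⁻¹ : Rˣ) : R) ^ l := by
  rw [mf_coeff u le_rfl]
  by_cases h : l = 0
  · subst h
    rw [if_neg (by omega), if_pos rfl, mul_zero]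
  · rw [if_pos ⟨one_dvd _, by omega⟩, if_neg h, ← mul_assoc, v_mul_u_sub, one_mul, Nat.div_one]

theorem conv {α : Type} (s : Finset α) (f : α → ℕ) (g : α → R) (q : ℕ → R) (e : ℕ) :
    ∑ p ∈ Finset.HasAntidiagonal.antidiagonal e, (∑ c ∈ s, if f c = p.1 then g c else 0) * q p.2 =
      ∑ c ∈ s, if f c ≤ e then g c * q (e - f c) else 0 := by
  simp only [Finset.sum_mul]
  rw [Finset.sum_comm]
  refine Finset.sum_congr rfl fun c _ => ?_
  split_ifs with h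
  · rw [Finset.sum_eq_single (f c, e - f c)]
    · rw [if_pos rfl]
    · rintro ⟨k, l⟩ hkl hne
      rw [Finset.HasAntidiagonal.mem_antidiagonal] at hkl
      simp only at hkl ⊢
      rw [if_neg, zero_mul]
      intro h'
      apply hne
      rw [Prod.mk.injEq]
      omega
    · intro h'
      exact absurd (Finset.HasAntidiagonal.mem_antidiagonal.2 (by simp only; omega)) h'
  · refine Finset.sum_eq_zero ?_
    rintro ⟨k, l⟩ hkl
    rw [Finset.HasAntidiagonal.mem_antidiagonal] at hkl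
    simp only at hkl ⊢
    rw [if_neg (by omega), zero_mul]

end Mf

section Poly

theorem constantCoeff_aeval {σ τ : Type} (g : σ → MvPolynomial τ ℂ) (hg : ∀ i, constantCoeff (g i) = 0)
    (h : MvPolynomial σ ℂ) : constantCoeff (aeval g h) = constantCoeff h := by
  induction h using MvPolynomial.induction_on with
  | C a => simp
  | add p q hp hq => rw [map_add, map_add, map_add, hp, hq]
  | mul_X p i _ => rw [map_mul, map_mul, aeval_X, hg, mul_zero, map_mul, constantCoeff_X, mul_zero]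

/-- the order of `h(x)` -/
theorem dvd_aeval {σ K : Type} [Field K] (h : MvPolynomial σ K) (x : Ac K σ) (n : ℕ)
    (hx : ∀ i, PowerSeries.X ^ n ∣ x i) :
    PowerSeries.X ^ n ∣ aeval x h - PowerSeries.C (algebraMap K (AlgebraicClosure K)
      (constantCoeff h)) := by
  induction h using MvPolynomial.induction_on with
  | C a =>
    rw [constantCoeff_C, aeval_C]
    rw [PowerSeries.algebraMap_apply, sub_self]
    exact dvd_zero _
  | add p q hp hq =>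
    rw [map_add, map_add, map_add, map_add]
    have := dvd_add hp hq
    convert this using 1
    ring
  | mul_X p i _ =>
    rw [map_mul, map_mul, aeval_X, constantCoeff_X, mul_zero, map_zero, map_zero, sub_zero]
    exact Dvd.dvd.mul_left (hx i) _

end Poly

section Sets

variable {K : Type} [Field K]

/-- `ord (x 0) = i < ord (x 1)` -/
def Up (K : Type) [Field K] (i : ℕ) : Set (Ac K (Fin 2)) :=
  {x | Od (x 0) i ∧ ∀ j ≤ i, PowerSeries.coeff j (x 1) = 0}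

/-- `ord (x 0) = i = ord (x 1)` -/
def Di (K : Type) [Field K] (i : ℕ) : Set (Ac K (Fin 2)) := {x | Od (x 0) i ∧ Od (x 1) i}

/-- `ord (x 1) = i < ord (x 0)` -/
def Dn (K : Type) [Field K] (i : ℕ) : Set (Ac K (Fin 2)) :=
  {x | Od (x 1) i ∧ ∀ j ≤ i, PowerSeries.coeff j (x 0) = 0}

/-- both orders are larger than `e` -/
def Bi (K : Type) [Field K] (e : ℕ) : Set (Ac K (Fin 2)) :=
  {x | (∀ j ≤ e, PowerSeries.coeff j (x 0) = 0) ∧ ∀ j ≤ e, PowerSeries.coeff j (x 1) = 0}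

theorem mem_Ix {a e : ℕ} {c : Option ℕ} (hc : c ∈ Ix a e) :
    (a = 0 ∧ c = none) ∨ (1 ≤ a ∧ ∃ i, 1 ≤ i ∧ i ≤ e ∧ c = some i) := by
  unfold Ix at hc
  split_ifs at hc with ha
  · exact Or.inl ⟨ha, Finset.mem_singleton.1 hc⟩
  · obtain ⟨i, hi, rfl⟩ := Finset.mem_map.1 hc
    exact Or.inr ⟨by omega, i, (Finset.mem_Icc.1 hi).1, (Finset.mem_Icc.1 hi).2, rfl⟩

theorem ix_some (i : ℕ) : ix (some i) = i := by
  rw [ix, Option.getD_some]

theorem ix_none : ix none = 0 := by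
  rw [ix, Option.getD_none]

theorem sum_Ix_pos {R : Type} [CommRing R] {a : ℕ} (ha : 1 ≤ a) (e : ℕ) (F : Option ℕ → R) :
    ∑ c ∈ Ix a e, F c = ∑ i ∈ Finset.Icc 1 e, F (some i) := by
  rw [show Ix a e = (Finset.Icc 1 e).map ⟨some, Option.some_injective ℕ⟩ from
      if_neg (by omega), Finset.sum_map]
  rfl

theorem sum_Ix_zero {R : Type} [CommRing R] (e : ℕ) (F : Option ℕ → R) :
    ∑ c ∈ Ix 0 e, F c = F none := by
  rw [show Ix 0 e = {none} from if_pos rfl, Finset.sum_singleton]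

/-- the sums with one term -/
theorem Ix_sum {R : Type} [CommRing R] (a e i : ℕ) (hi : 1 ≤ i) (hie : i ≤ e) (F : Option ℕ → R) (r : R)
    (h0 : a = 0 → F none = r) (h1 : 1 ≤ a → F (some i) = r)
    (h2 : ∀ i', 1 ≤ i' → i' ≠ i → 1 ≤ a → F (some i') = 0) : ∑ c ∈ Ix a e, F c = r := by
  rcases Nat.eq_zero_or_pos a with ha | ha
  · rw [Ix, if_pos ha, Finset.sum_singleton, h0 ha]
  · rw [show Ix a e = (Finset.Icc 1 e).map ⟨some, Option.some_injective ℕ⟩ from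
      if_neg (by omega), Finset.sum_map]
    simp only [Function.Embedding.coeFn_mk]
    rw [Finset.sum_eq_single i]
    · exact h1 ha
    · intro j hj hne
      exact h2 j (Finset.mem_Icc.1 hj).1 hne ha
    · intro h
      exact absurd (Finset.mem_Icc.2 ⟨hi, hie⟩) h

theorem A2_low (h : MvPolynomial (Fin 2) K) {a₀ a₁ e : ℕ} {c0 c1 : Option ℕ} (hc0 : c0 ∈ Ix a₀ e)
    (hc1 : c1 ∈ Ix a₁ e) (l : ℕ) : Bi K 0 ∩ A2 h c0 c1 l = A2 h c0 c1 l := by
  refine Set.inter_eq_right.2 ?_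
  rintro x ⟨h0, h1, -⟩
  have hl : ∀ {c : Option ℕ} {a : ℕ} (y : PowerSeries (AlgebraicClosure K)), c ∈ Ix a e → oc c y →
      ∀ j ≤ 0, PowerSeries.coeff j y = 0 := by
    intro c a y hc hy j hj
    rw [Nat.le_zero.1 hj]
    rcases mem_Ix hc with ⟨-, rfl⟩ | ⟨-, i, hi, -, rfl⟩
    · exact hy
    · exact hy.1 0 (by omega)
  exact ⟨hl _ hc0 h0, hl _ hc1 h1⟩

theorem A2_high (h : MvPolynomial (Fin 2) K) (hh : constantCoeff h = 0) {a₀ a₁ e : ℕ}
    {c0 c1 : Option ℕ} (hc0 : c0 ∈ Ix a₀ e) (hc1 : c1 ∈ Ix a₁ e) (l : ℕ) (hl : l ≤ e) :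
    Bi K e ∩ A2 h c0 c1 l = ∅ := by
  rw [Set.eq_empty_iff_forall_notMem]
  rintro x ⟨⟨h0, h1⟩, h2, h3, h4⟩
  rcases mem_Ix hc0 with ⟨-, rfl⟩ | ⟨-, i, hi, hie, rfl⟩
  · rcases mem_Ix hc1 with ⟨-, rfl⟩ | ⟨-, i, hi, hie, rfl⟩
    · have h5 := dvd_aeval h x (e + 1) (fun i => by
        rw [PowerSeries.X_pow_dvd_iff]
        intro m hm
        fin_cases i
        · exact h0 m (by omega)
        · exact h1 m (by omega))
      rw [hh, map_zero, map_zero, sub_zero, PowerSeries.X_pow_dvd_iff] at h5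
      exact h4.2 (h5 l (by omega))
    · exact h3.2 (h1 i hie)
  · exact h2.2 (h0 i hie)

theorem sum_comm3 {α β γ R : Type} [CommRing R] (s : Finset α) (t : Finset β) (w : Finset γ)
    (f : α → β → γ → R) : ∑ a ∈ s, ∑ b ∈ t, ∑ c ∈ w, f a b c = ∑ c ∈ w, ∑ a ∈ s, ∑ b ∈ t, f a b c := by
  rw [Finset.sum_comm]
  refine (Finset.sum_congr rfl fun b _ => Finset.sum_comm).trans ?_
  rw [Finset.sum_comm]
  exact Finset.sum_congr rfl fun c _ => Finset.sum_comm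

/-- the weighted volume -/
noncomputable def JJ {R : Type} [CommRing R] (M : Meas K R) (v : R) (h : MvPolynomial (Fin 2) K) (a₀ n₀ a₁ n₁ e : ℕ)
    (B : Set (Ac K (Fin 2))) : R :=
  ∑ c0 ∈ Ix a₀ e, ∑ c1 ∈ Ix a₁ e, if a₀ * ix c0 + a₁ * ix c1 ≤ e then
    v ^ ((n₀ - 1) * ix c0 + (n₁ - 1) * ix c1) *
      vol M v (B ∩ A2 h c0 c1 (e - a₀ * ix c0 - a₁ * ix c1)) else 0

variable {R : Type} [CommRing R] (M : Meas K R) (v : R) (hv : M.L * v = 1) (hV : S_V1) (hC : S_CC)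

include M v hv hV hC

theorem cyl_low (i : Fin 2) (e : ℕ) :
    IsCyl {x : Ac K (Fin 2) | ∀ j ≤ e, PowerSeries.coeff j (x i) = 0} := by
  have h := cyl_finInter M v hv hV (Finset.range (e + 1))
    (fun j => {x : Ac K (Fin 2) | PowerSeries.coeff j (x i) = 0}) fun j _ => cyl_coord hC i j
  have e' : {x : Ac K (Fin 2) | ∀ j ∈ Finset.range (e + 1),
      x ∈ {x : Ac K (Fin 2) | PowerSeries.coeff j (x i) = 0}} =
      {x : Ac K (Fin 2) | ∀ j ≤ e, PowerSeries.coeff j (x i) = 0} := by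
    ext x
    simp only [Finset.mem_range, Nat.lt_succ_iff, Set.mem_ofPred_eq]
  rwa [e'] at h

theorem cyl_Up (i : ℕ) : IsCyl (Up K i) :=
  (cyl_ops M v hv hV).2.1 _ _ (cyl_Odx M v hv hV hC 0 i) (cyl_low M v hv hV hC 1 i)

theorem cyl_Di (i : ℕ) : IsCyl (Di K i) :=
  (cyl_ops M v hv hV).2.1 _ _ (cyl_Odx M v hv hV hC 0 i) (cyl_Odx M v hv hV hC 1 i)

theorem cyl_Dn (i : ℕ) : IsCyl (Dn K i) :=
  (cyl_ops M v hv hV).2.1 _ _ (cyl_Odx M v hv hV hC 1 i) (cyl_low M v hv hV hC 0 i)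

theorem cyl_Bi (e : ℕ) : IsCyl (Bi K e) :=
  (cyl_ops M v hv hV).2.1 _ _ (cyl_low M v hv hV hC 0 e) (cyl_low M v hv hV hC 1 e)

theorem vol_step (Y : Set (Ac K (Fin 2))) (hY : IsCyl Y) (e : ℕ) :
    vol M v (Bi K e ∩ Y) = vol M v (Up K (e + 1) ∩ Y) + vol M v (Di K (e + 1) ∩ Y) +
      vol M v (Dn K (e + 1) ∩ Y) + vol M v (Bi K (e + 1) ∩ Y) := by
  have ha := (hV M v hv (σ := Fin 2)).2.2.1
  have hi := (cyl_ops (σ := Fin 2) M v hv hV).2.1
  have hu := (cyl_ops (σ := Fin 2) M v hv hV).2.2.1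
  have h1 := hi _ _ (cyl_Up M v hv hV hC (e + 1)) hY
  have h2 := hi _ _ (cyl_Di M v hv hV hC (e + 1)) hY
  have h3 := hi _ _ (cyl_Dn M v hv hV hC (e + 1)) hY
  have h4 := hi _ _ (cyl_Bi M v hv hV hC (e + 1)) hY
  rw [← ha _ _ h1 h2, ← ha _ _ (hu _ _ h1 h2) h3, ← ha _ _ (hu _ _ (hu _ _ h1 h2) h3) h4]
  · congr 1
    ext x
    simp only [Set.mem_inter_iff, Set.mem_union, Up, Di, Dn, Bi, Set.mem_ofPred_eq, Od]
    constructor
    · rintro ⟨⟨h5, h6⟩, h7⟩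
      have h5' : ∀ j < e + 1, PowerSeries.coeff j (x 0) = 0 := fun j hj => h5 j (by omega)
      have h6' : ∀ j < e + 1, PowerSeries.coeff j (x 1) = 0 := fun j hj => h6 j (by omega)
      by_cases h8 : PowerSeries.coeff (e + 1) (x 0) = 0 <;>
        by_cases h9 : PowerSeries.coeff (e + 1) (x 1) = 0
      · right
        refine ⟨⟨fun j hj => ?_, fun j hj => ?_⟩, h7⟩
        · rcases Nat.lt_or_ge j (e + 1) with h | h
          · exact h5' j h
          · rwa [show j = e + 1 by omega]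
        · rcases Nat.lt_or_ge j (e + 1) with h | h
          · exact h6' j h
          · rwa [show j = e + 1 by omega]
      · left
        right
        refine ⟨⟨⟨h6', h9⟩, fun j hj => ?_⟩, h7⟩
        rcases Nat.lt_or_ge j (e + 1) with h | h
        · exact h5' j h
        · rwa [show j = e + 1 by omega]
      · left
        left
        left
        refine ⟨⟨⟨h5', h8⟩, fun j hj => ?_⟩, h7⟩
        rcases Nat.lt_or_ge j (e + 1) with h | h
        · exact h6' j h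
        · rwa [show j = e + 1 by omega]
      · left
        left
        right
        exact ⟨⟨⟨h5', h8⟩, ⟨h6', h9⟩⟩, h7⟩
    · rintro (((⟨⟨h5, h6⟩, h7⟩ | ⟨⟨h5, h6⟩, h7⟩) | ⟨⟨h5, h6⟩, h7⟩) | ⟨⟨h5, h6⟩, h7⟩)
      · exact ⟨⟨fun j hj => h5.1 j (by omega), fun j hj => h6 j (by omega)⟩, h7⟩
      · exact ⟨⟨fun j hj => h5.1 j (by omega), fun j hj => h6.1 j (by omega)⟩, h7⟩
      · exact ⟨⟨fun j hj => h6 j (by omega), fun j hj => h5.1 j (by omega)⟩, h7⟩
      · exact ⟨⟨fun j hj => h5 j (by omega), fun j hj => h6 j (by omega)⟩, h7⟩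
  · rw [Set.disjoint_left]
    rintro x ((⟨⟨h5, h6⟩, -⟩ | ⟨⟨h5, h6⟩, -⟩) | ⟨⟨h5, h6⟩, -⟩) ⟨⟨h7, h8⟩, -⟩
    · exact h5.2 (h7 _ le_rfl)
    · exact h5.2 (h7 _ le_rfl)
    · exact h5.2 (h8 _ le_rfl)
  · rw [Set.disjoint_left]
    rintro x (⟨⟨h5, h6⟩, -⟩ | ⟨⟨h5, h6⟩, -⟩) ⟨⟨h7, h8⟩, -⟩
    · exact h5.2 (h8 _ le_rfl)
    · exact h5.2 (h8 _ le_rfl)
  · rw [Set.disjoint_left]
    rintro x ⟨⟨h5, h6⟩, -⟩ ⟨⟨h7, h8⟩, -⟩
    exact h8.2 (h6 _ le_rfl)

theorem vol_part (Y : Set (Ac K (Fin 2))) (hY : IsCyl Y) (e : ℕ) :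
    vol M v (Bi K 0 ∩ Y) = ∑ i ∈ Finset.Icc 1 e, (vol M v (Up K i ∩ Y) + vol M v (Di K i ∩ Y) +
      vol M v (Dn K i ∩ Y)) + vol M v (Bi K e ∩ Y) := by
  induction e with
  | zero => rw [Finset.Icc_eq_empty (by omega), Finset.sum_empty, zero_add]
  | succ e ih =>
    rw [Finset.sum_Icc_succ_top (by omega), ih, vol_step M v hv hV hC Y hY e]
    ring

/-- the partition of the arcs -/
theorem JJ_part (h : MvPolynomial (Fin 2) K) (hh : constantCoeff h = 0) (a₀ n₀ a₁ n₁ e : ℕ) :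
    JJ M v h a₀ n₀ a₁ n₁ e Set.univ = ∑ i ∈ Finset.Icc 1 e, (JJ M v h a₀ n₀ a₁ n₁ e (Up K i) +
      JJ M v h a₀ n₀ a₁ n₁ e (Di K i) + JJ M v h a₀ n₀ a₁ n₁ e (Dn K i)) := by
  have key : ∀ c0 ∈ Ix a₀ e, ∀ c1 ∈ Ix a₁ e,
      (if a₀ * ix c0 + a₁ * ix c1 ≤ e then v ^ ((n₀ - 1) * ix c0 + (n₁ - 1) * ix c1) *
        vol M v (Set.univ ∩ A2 h c0 c1 (e - a₀ * ix c0 - a₁ * ix c1)) else 0) =
      ∑ i ∈ Finset.Icc 1 e,
        ((if a₀ * ix c0 + a₁ * ix c1 ≤ e then v ^ ((n₀ - 1) * ix c0 + (n₁ - 1) * ix c1) *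
          vol M v (Up K i ∩ A2 h c0 c1 (e - a₀ * ix c0 - a₁ * ix c1)) else 0) +
        (if a₀ * ix c0 + a₁ * ix c1 ≤ e then v ^ ((n₀ - 1) * ix c0 + (n₁ - 1) * ix c1) *
          vol M v (Di K i ∩ A2 h c0 c1 (e - a₀ * ix c0 - a₁ * ix c1)) else 0) +
        (if a₀ * ix c0 + a₁ * ix c1 ≤ e then v ^ ((n₀ - 1) * ix c0 + (n₁ - 1) * ix c1) *
          vol M v (Dn K i ∩ A2 h c0 c1 (e - a₀ * ix c0 - a₁ * ix c1)) else 0)) := by
    intro c0 hc0 c1 hc1
    split_ifs with hle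
    · rw [Set.univ_inter]
      simp only [← mul_add]
      rw [← Finset.mul_sum]
      congr 1
      have h1 := vol_part M v hv hV hC (A2 h c0 c1 (e - a₀ * ix c0 - a₁ * ix c1))
        (cyl_A2 M v hv hV hC h c0 c1 _) e
      rw [A2_low h hc0 hc1, A2_high h hh hc0 hc1 _ (by omega), (hV M v hv (σ := Fin 2)).2.2.2.2,
        add_zero] at h1
      exact h1
    · simp
  unfold JJ
  rw [Finset.sum_congr rfl fun c0 hc0 => Finset.sum_congr rfl fun c1 hc1 => key c0 hc0 c1 hc1]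
  simp only [Finset.sum_add_distrib]
  exact congrArg₂ (· + ·) (congrArg₂ (· + ·) (sum_comm3 _ _ _ _) (sum_comm3 _ _ _ _))
    (sum_comm3 _ _ _ _)

/-- the sums over the orders of `x 0` -/
theorem JJ_left (h : MvPolynomial (Fin 2) K) (a₀ n₀ a₁ n₁ e i : ℕ) (h0 : a₀ = 0 → n₀ = 1)
    (hi : 1 ≤ i) (hie : i ≤ e) (B : Set (Ac K (Fin 2))) (hB : ∀ x ∈ B, Od (x 0) i) :
    JJ M v h a₀ n₀ a₁ n₁ e B = ∑ c1 ∈ Ix a₁ e, if a₀ * i + a₁ * ix c1 ≤ e then
      v ^ ((n₀ - 1) * i + (n₁ - 1) * ix c1) *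
        vol M v (B ∩ A2 h (some i) c1 (e - a₀ * i - a₁ * ix c1)) else 0 := by
  unfold JJ
  rw [Finset.sum_comm]
  refine Finset.sum_congr rfl fun c1 hc1 => ?_
  refine Ix_sum a₀ e i hi hie _ _ ?_ ?_ ?_
  · intro ha
    have hn := h0 ha
    subst ha hn
    have hs : ∀ l, B ∩ A2 h none c1 l = B ∩ A2 h (some i) c1 l := by
      intro l
      ext x
      simp only [Set.mem_inter_iff, A2, Set.mem_ofPred_eq]
      refine and_congr_right fun hx => and_congr_left fun _ => ?_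
      exact ⟨fun _ => hB x hx, fun _ => (hB x hx).1 0 (by omega)⟩
    simp only [ix, Option.getD_none, mul_zero, Nat.sub_self, zero_mul, zero_add, Nat.sub_zero, hs]
  · intro _
    rfl
  · intro i' hi' hne _
    have hs : ∀ l, B ∩ A2 h (some i') c1 l = ∅ := by
      intro l
      rw [Set.eq_empty_iff_forall_notMem]
      rintro x ⟨hx, hx', -⟩
      exact hne (Od_unique hx' (hB x hx))
    rw [hs, (hV M v hv (σ := Fin 2)).2.2.2.2, mul_zero, ite_self]

theorem JJ_Di (h : MvPolynomial (Fin 2) K) (a₀ n₀ a₁ n₁ e i : ℕ) (h0 : a₀ = 0 → n₀ = 1)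
    (h1 : a₁ = 0 → n₁ = 1) (hi : 1 ≤ i) (hie : i ≤ e) :
    JJ M v h a₀ n₀ a₁ n₁ e (Di K i) = if a₀ * i + a₁ * i ≤ e then
      v ^ ((n₀ - 1) * i + (n₁ - 1) * i) *
        vol M v (A2 h (some i) (some i) (e - a₀ * i - a₁ * i)) else 0 := by
  rw [JJ_left M v hv hV hC h a₀ n₀ a₁ n₁ e i h0 hi hie _ fun x hx => hx.1]
  refine Ix_sum a₁ e i hi hie _ _ ?_ ?_ ?_
  · intro ha
    have hn := h1 ha
    subst ha hn
    have hs : ∀ l, Di K i ∩ A2 h (some i) none l = A2 h (some i) (some i) l := by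
      intro l
      ext x
      simp only [Set.mem_inter_iff, A2, Set.mem_ofPred_eq, Di, oc]
      constructor
      · rintro ⟨⟨h2, h3⟩, h4, h5, h6⟩
        exact ⟨h2, h3, h6⟩
      · rintro ⟨h2, h3, h6⟩
        exact ⟨⟨h2, h3⟩, h2, h3.1 0 (by omega), h6⟩
    simp only [ix, Option.getD_none, mul_zero, Nat.sub_self, zero_mul, add_zero, Nat.sub_zero, hs]
  · intro _
    have hs : ∀ l, Di K i ∩ A2 h (some i) (some i) l = A2 h (some i) (some i) l := by
      intro l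
      ext x
      simp only [Set.mem_inter_iff, A2, Set.mem_ofPred_eq, Di, oc]
      constructor
      · rintro ⟨⟨h2, h3⟩, h4, h5, h6⟩
        exact ⟨h2, h3, h6⟩
      · rintro ⟨h2, h3, h6⟩
        exact ⟨⟨h2, h3⟩, h2, h3, h6⟩
    simp only [ix, Option.getD_some, hs]
  · intro i' hi' hne _
    have hs : ∀ l, Di K i ∩ A2 h (some i) (some i') l = ∅ := by
      intro l
      rw [Set.eq_empty_iff_forall_notMem]
      rintro x ⟨⟨-, hx⟩, -, hx', -⟩
      exact hne (Od_unique hx' hx)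
    rw [hs, (hV M v hv (σ := Fin 2)).2.2.2.2, mul_zero, ite_self]

/-- exchange of the coordinates -/
theorem JJ_swap (hRE : S_RE) (h : MvPolynomial (Fin 2) K) (a₀ n₀ a₁ n₁ e : ℕ)
    (B : Set (Ac K (Fin 2))) (hB : IsCyl B) :
    JJ M v h a₀ n₀ a₁ n₁ e B = JJ M v (rename (Equiv.swap (0 : Fin 2) 1) h) a₁ n₁ a₀ n₀ e
      {x | (fun i => x (Equiv.swap (0 : Fin 2) 1 i)) ∈ B} := by
  unfold JJ
  rw [Finset.sum_comm]
  refine Finset.sum_congr rfl fun c1 hc1 => Finset.sum_congr rfl fun c0 hc0 => ?_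
  have hs : ∀ l, vol M v ({x | (fun i => x (Equiv.swap (0 : Fin 2) 1 i)) ∈ B} ∩
      A2 (rename (Equiv.swap (0 : Fin 2) 1) h) c1 c0 l) = vol M v (B ∩ A2 h c0 c1 l) := by
    intro l
    rw [← (hRE M v hv (Equiv.swap (0 : Fin 2) 1) (B ∩ A2 h c0 c1 l)
      ((cyl_ops M v hv hV).2.1 _ _ hB (cyl_A2 M v hv hV hC h c0 c1 l))).2]
    congr 1
    ext x
    simp only [Set.mem_inter_iff, A2, Set.mem_ofPred_eq, aeval_rename, Equiv.swap_apply_left,
      Equiv.swap_apply_right]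
    refine and_congr_right fun _ => ?_
    constructor
    · rintro ⟨h1, h2, h3⟩
      exact ⟨h2, h1, h3⟩
    · rintro ⟨h1, h2, h3⟩
      exact ⟨h2, h1, h3⟩
  rw [hs, add_comm (a₁ * ix c1), add_comm ((n₁ - 1) * ix c1),
    show e - a₁ * ix c1 - a₀ * ix c0 = e - a₀ * ix c0 - a₁ * ix c1 by omega]

end Sets

section Blow

theorem sum_shift {R : Type} [CommRing R] (F G : ℕ → R) (e i : ℕ)
    (hF : ∀ j, 1 ≤ j → j ≤ i → F j = 0) (hFG : ∀ j, 1 ≤ j → F (j + i) = G j)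
    (hG : ∀ j, 1 ≤ j → e < j + i → G j = 0) :
    ∑ j ∈ Finset.Icc 1 e, F j = ∑ j ∈ Finset.Icc 1 e, G j := by
  refine Finset.sum_bij_ne_zero (fun j _ _ => j - i) ?_ ?_ ?_ ?_
  · intro j hj hne
    have hij : i < j := by
      by_contra hcon
      exact hne (hF j (Finset.mem_Icc.1 hj).1 (by omega))
    exact Finset.mem_Icc.2 ⟨by omega, le_trans (Nat.sub_le _ _) (Finset.mem_Icc.1 hj).2⟩
  · intro j hj hne j' hj' hne' heq
    have hij : i < j := by
      by_contra hcon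
      exact hne (hF j (Finset.mem_Icc.1 hj).1 (by omega))
    have hij' : i < j' := by
      by_contra hcon
      exact hne' (hF j' (Finset.mem_Icc.1 hj').1 (by omega))
    omega
  · intro j hj hne
    have hij : j + i ≤ e := by
      by_contra hcon
      exact hne (hG j (Finset.mem_Icc.1 hj).1 (by omega))
    refine ⟨j + i, Finset.mem_Icc.2 ⟨by have := (Finset.mem_Icc.1 hj).1; omega, hij⟩, ?_, ?_⟩
    · rw [hFG j (Finset.mem_Icc.1 hj).1]
      exact hne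
    · omega
  · intro j hj hne
    have hij : i < j := by
      by_contra hcon
      exact hne (hF j (Finset.mem_Icc.1 hj).1 (by omega))
    rw [← hFG (j - i) (by omega), Nat.sub_add_cancel (by omega)]

variable {K : Type} [Field K] [IsAlgClosed K] [DecidableEq K] {R : Type} [CommRing R]
  (M : Meas K R) (v : R) (hv : M.L * v = 1) (hV : S_V1) (hC : S_CC) (hP : S_P4)
  (h : MvPolynomial (Fin 2) K) (m : ℕ) (hc : K → MvPolynomial (Fin 2) K)
  (hhc : ∀ c, aeval ![X 0, X 0 * (X 1 + C c)] h = X 0 ^ m * hc c) (S : Finset K) (h0S : 0 ∈ S)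
  (hS : ∀ c ∉ S, constantCoeff (hc c) ≠ 0)

include hv hV hC hP hhc h0S hS

theorem vol_Up_none (i l : ℕ) (hi : 1 ≤ i) : vol M v (Up K i ∩ A2 h (some i) none l) =
    if m * i ≤ l then v ^ i * vol M v (A2 (hc 0) (some i) none (l - m * i)) else 0 := by
  obtain ⟨h1, h2, -⟩ := hP M v hv h m hc hhc S h0S hS i l hi
  have h3 : {x ∈ A2 h (some i) none l | ∀ j < i, PowerSeries.coeff j (x 1) = 0} =
      (Up K i ∩ A2 h (some i) none l) ∪ A2 h (some i) (some i) l := by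
    ext x
    simp only [Set.mem_union, Set.mem_inter_iff, Up, A2, Set.mem_ofPred_eq, oc]
    constructor
    · rintro ⟨⟨h3, h4, h5⟩, h6⟩
      by_cases h7 : PowerSeries.coeff i (x 1) = 0
      · left
        refine ⟨⟨h3, fun j hj => ?_⟩, h3, h4, h5⟩
        rcases Nat.lt_or_ge j i with h8 | h8
        · exact h6 j h8
        · rwa [show j = i by omega]
      · right
        exact ⟨h3, ⟨h6, h7⟩, h5⟩
    · rintro (⟨⟨-, h7⟩, h3, h4, h5⟩ | ⟨h3, h4, h5⟩)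
      · exact ⟨⟨h3, h4, h5⟩, fun j hj => h7 j (by omega)⟩
      · exact ⟨⟨h3, h4.1 0 (by omega), h5⟩, h4.1⟩
  have hd : Disjoint (Up K i ∩ A2 h (some i) none l) (A2 h (some i) (some i) l) := by
    rw [Set.disjoint_left]
    rintro x ⟨⟨-, h4⟩, -⟩ ⟨-, h5, -⟩
    exact h5.2 (h4 i le_rfl)
  rw [h3, (hV M v hv (σ := Fin 2)).2.2.1 _ _ ((cyl_ops M v hv hV).2.1 _ _
    (cyl_Up M v hv hV hC i) (cyl_A2 M v hv hV hC h _ _ _)) (cyl_A2 M v hv hV hC h _ _ _) hd, h2,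
    ← Finset.add_sum_erase S _ h0S] at h1
  split_ifs at h1 ⊢ <;> linear_combination h1

theorem vol_Up_some (i j l : ℕ) (hi : 1 ≤ i) (hij : i < j) :
    vol M v (Up K i ∩ A2 h (some i) (some j) l) =
    if m * i ≤ l then v ^ i * vol M v (A2 (hc 0) (some i) (some (j - i)) (l - m * i)) else 0 := by
  obtain ⟨-, -, h1⟩ := hP M v hv h m hc hhc S h0S hS i l hi
  rw [← h1 j hij]
  congr 1
  refine Set.inter_eq_right.2 ?_
  rintro x ⟨h2, h3, -⟩
  exact ⟨h2, fun k hk => h3.1 k (by omega)⟩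

/-- the contributions of the directions `v = 0` -/
theorem JJ_Up (a₀ n₀ a₁ n₁ e : ℕ) (hm : 1 ≤ m) (h0 : a₀ = 0 → n₀ = 1) (h1 : a₁ = 0 → n₁ = 1)
    (hn0 : 1 ≤ n₀) (hn1 : 1 ≤ n₁) :
    ∑ i ∈ Finset.Icc 1 e, JJ M v h a₀ n₀ a₁ n₁ e (Up K i) =
      JJ M v (hc 0) (a₀ + a₁ + m) (n₀ + n₁) a₁ n₁ e Set.univ := by
  have hR : JJ M v (hc 0) (a₀ + a₁ + m) (n₀ + n₁) a₁ n₁ e Set.univ = ∑ i ∈ Finset.Icc 1 e,
      ∑ c1 ∈ Ix a₁ e, if (a₀ + a₁ + m) * i + a₁ * ix c1 ≤ e then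
        v ^ ((n₀ + n₁ - 1) * i + (n₁ - 1) * ix c1) *
          vol M v (A2 (hc 0) (some i) c1 (e - (a₀ + a₁ + m) * i - a₁ * ix c1)) else 0 := by
    unfold JJ
    rw [sum_Ix_pos (by omega)]
    simp only [ix_some, Set.univ_inter]
  rw [hR]
  refine Finset.sum_congr rfl fun i hi => ?_
  obtain ⟨hi1, hie⟩ := Finset.mem_Icc.1 hi
  rw [JJ_left M v hv hV hC h a₀ n₀ a₁ n₁ e i h0 hi1 hie (Up K i) fun x hx => hx.1]
  obtain ⟨n₀, rfl⟩ := Nat.exists_eq_add_of_le' hn0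
  obtain ⟨n₁, rfl⟩ := Nat.exists_eq_add_of_le' hn1
  have hN : n₀ + 1 + (n₁ + 1) - 1 = n₀ + n₁ + 1 := by omega
  simp only [hN, Nat.add_sub_cancel]
  rcases Nat.eq_zero_or_pos a₁ with ha | ha
  · have hn := h1 ha
    subst ha
    have hn' : n₁ = 0 := by omega
    subst hn'
    rw [sum_Ix_zero, sum_Ix_zero, vol_Up_none M v hv hV hC hP h m hc hhc S h0S hS i _ hi1]
    simp only [ix_none, mul_zero, add_zero, Nat.sub_zero]
    have hA : (a₀ + m) * i = a₀ * i + m * i := by ring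
    rw [hA, show e - (a₀ * i + m * i) = e - a₀ * i - m * i by omega]
    by_cases h3 : a₀ * i + m * i ≤ e
    · rw [if_pos (show a₀ * i ≤ e by omega), if_pos (show m * i ≤ e - a₀ * i by omega), if_pos h3,
        ← mul_assoc, ← pow_add]
      congr 2
      ring
    · rw [if_neg h3]
      by_cases h4 : a₀ * i ≤ e
      · rw [if_pos h4, if_neg (by omega), mul_zero]
      · rw [if_neg h4]
  · rw [sum_Ix_pos ha, sum_Ix_pos ha]
    simp only [ix_some]
    refine sum_shift _ _ e i ?_ ?_ ?_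
    · intro j hj hji
      have hs : ∀ l, Up K i ∩ A2 h (some i) (some j) l = ∅ := by
        intro l
        rw [Set.eq_empty_iff_forall_notMem]
        rintro x ⟨⟨-, hx⟩, -, hx', -⟩
        exact hx'.2 (hx j hji)
      rw [hs, (hV M v hv (σ := Fin 2)).2.2.2.2, mul_zero, ite_self]
    · intro j hj
      rw [vol_Up_some M v hv hV hC hP h m hc hhc S h0S hS i (j + i) _ hi1 (by omega),
        Nat.add_sub_cancel]
      have hA : (a₀ + a₁ + m) * i = a₀ * i + a₁ * i + m * i := by ring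
      have hB : a₁ * (j + i) = a₁ * j + a₁ * i := by ring
      rw [hA, hB, show e - (a₀ * i + a₁ * i + m * i) - a₁ * j =
        e - a₀ * i - (a₁ * j + a₁ * i) - m * i by omega]
      by_cases h3 : a₀ * i + a₁ * i + m * i + a₁ * j ≤ e
      · rw [if_pos (show a₀ * i + (a₁ * j + a₁ * i) ≤ e by omega),
          if_pos (show m * i ≤ e - a₀ * i - (a₁ * j + a₁ * i) by omega), if_pos h3,
          ← mul_assoc, ← pow_add]
        congr 2
        ring
      · rw [if_neg h3]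
        by_cases h4 : a₀ * i + (a₁ * j + a₁ * i) ≤ e
        · rw [if_pos h4, if_neg (by omega), mul_zero]
        · rw [if_neg h4]
    · intro j hj hji
      rw [if_neg]
      have h3 : i ≤ (a₀ + a₁ + m) * i := Nat.le_mul_of_pos_left i (by omega)
      have h4 : j ≤ a₁ * j := Nat.le_mul_of_pos_left j ha
      omega

omit hv hV hC hP hhc h0S hS [IsAlgClosed K] [DecidableEq K] in
theorem JJ_zero_one (g : MvPolynomial (Fin 2) K) (a n e : ℕ) (ha : 1 ≤ a) :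
    JJ M v g a n 0 1 e Set.univ = ∑ i ∈ Finset.Icc 1 e, if a * i ≤ e then
      v ^ ((n - 1) * i) * vol M v (A2 g (some i) none (e - a * i)) else 0 := by
  unfold JJ
  rw [sum_Ix_pos ha]
  simp only [sum_Ix_zero, ix_some, ix_none, mul_zero, add_zero, Nat.sub_zero, Set.univ_inter]

/-- the contributions of the directions `v = c u`, `c ≠ 0` -/
theorem JJ_Di_sum (a₀ n₀ a₁ n₁ e : ℕ) (hm : 1 ≤ m) (h0 : a₀ = 0 → n₀ = 1) (h1 : a₁ = 0 → n₁ = 1)
    (hn0 : 1 ≤ n₀) (hn1 : 1 ≤ n₁) :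
    ∑ i ∈ Finset.Icc 1 e, JJ M v h a₀ n₀ a₁ n₁ e (Di K i) =
      ∑ c ∈ S.erase 0, JJ M v (hc c) (a₀ + a₁ + m) (n₀ + n₁) 0 1 e Set.univ +
      ∑ i ∈ Finset.Icc 1 e, if (a₀ + a₁ + m) * i = e then
        v ^ ((n₀ + n₁ - 1) * i) * ((1 - v) * v ^ i) * (1 - (S.card : R) * v) else 0 := by
  simp only [fun c => JJ_zero_one M v (hc c) (a₀ + a₁ + m) (n₀ + n₁) e (by omega)]
  rw [Finset.sum_comm, ← Finset.sum_add_distrib]
  refine Finset.sum_congr rfl fun i hi => ?_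
  obtain ⟨hi1, hie⟩ := Finset.mem_Icc.1 hi
  rw [JJ_Di M v hv hV hC h a₀ n₀ a₁ n₁ e i h0 h1 hi1 hie]
  obtain ⟨-, h2, -⟩ := hP M v hv h m hc hhc S h0S hS i (e - a₀ * i - a₁ * i) hi1
  rw [h2]
  obtain ⟨n₀, rfl⟩ := Nat.exists_eq_add_of_le' hn0
  obtain ⟨n₁, rfl⟩ := Nat.exists_eq_add_of_le' hn1
  have hN : n₀ + 1 + (n₁ + 1) - 1 = n₀ + n₁ + 1 := by omega
  have hA : (a₀ + a₁ + m) * i = a₀ * i + a₁ * i + m * i := by ring
  simp only [hN, Nat.add_sub_cancel, hA]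
  rw [show e - (a₀ * i + a₁ * i + m * i) = e - a₀ * i - a₁ * i - m * i by omega]
  by_cases h3 : a₀ * i + a₁ * i + m * i ≤ e
  · rw [if_pos (show a₀ * i + a₁ * i ≤ e by omega),
      if_pos (show m * i ≤ e - a₀ * i - a₁ * i by omega)]
    simp only [if_pos h3]
    rw [← Finset.mul_sum]
    by_cases h4 : a₀ * i + a₁ * i + m * i = e
    · rw [if_pos (show e - a₀ * i - a₁ * i = m * i by omega), if_pos h4]
      simp only [mo]
      rw [show (n₀ + n₁ + 1) * i = n₀ * i + n₁ * i + i by ring, pow_add v (n₀ * i + n₁ * i) i]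
      ring
    · rw [if_neg (show ¬ e - a₀ * i - a₁ * i = m * i by omega), if_neg h4, add_zero, add_zero]
      rw [show (n₀ + n₁ + 1) * i = n₀ * i + n₁ * i + i by ring, pow_add v (n₀ * i + n₁ * i) i]
      ring
  · simp only [if_neg h3]
    rw [Finset.sum_const_zero, if_neg (show ¬ a₀ * i + a₁ * i + m * i = e by omega), zero_add]
    by_cases h4 : a₀ * i + a₁ * i ≤ e
    · rw [if_pos h4, if_neg (by omega), if_neg (by omega), add_zero, mul_zero]
    · rw [if_neg h4]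

end Blow

section Swap

/-- the transforms of the polynomial with the variables exchanged -/
theorem swap_data (h : MvPolynomial (Fin 2) ℂ) (m : ℕ) (hc : ℂ → MvPolynomial (Fin 2) ℂ)
    (hI : MvPolynomial (Fin 2) ℂ) (hhc : ∀ c, aeval (chart c) h = X 0 ^ m * hc c)
    (hhI : aeval chartI h = X 1 ^ m * hI) (S : Finset ℂ)
    (hS : ∀ c ∉ S, constantCoeff (hc c) ≠ 0) :
    ∃ (hc' : ℂ → MvPolynomial (Fin 2) ℂ) (S' : Finset ℂ),
      (∀ c, aeval ![X 0, X 0 * (X 1 + C c)] (rename (Equiv.swap (0 : Fin 2) 1) h) =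
        X 0 ^ m * hc' c) ∧ 0 ∈ S' ∧ (∀ c ∉ S', constantCoeff (hc' c) ≠ 0) ∧
      hc' 0 = rename (Equiv.swap (0 : Fin 2) 1) hI := by
  classical
  refine ⟨fun c => aeval ![X 1 + C c, X 0] hI, insert 0 (S.image (·⁻¹)), ?_,
    Finset.mem_insert_self _ _, ?_, ?_⟩
  · intro c
    have h1 := congrArg (aeval (![X 1 + C c, X 0] : Fin 2 → MvPolynomial (Fin 2) ℂ)) hhI
    rw [map_mul, map_pow, aeval_X, comp_aeval_apply] at h1
    rw [aeval_rename]
    have h2 : (![X 0, X 0 * (X 1 + C c)] : Fin 2 → MvPolynomial (Fin 2) ℂ) ∘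
        (Equiv.swap (0 : Fin 2) 1) = fun i => aeval ![X 1 + C c, X 0] (chartI i) := by
      funext i
      fin_cases i
      · simp [chartI, mul_comm]
      · simp [chartI]
    rw [h2, h1]
    rfl
  · intro c hcS
    rw [Finset.mem_insert, not_or] at hcS
    obtain ⟨hc0, hcS⟩ := hcS
    have h3 : c⁻¹ ∉ S := fun h' => hcS (Finset.mem_image.2 ⟨c⁻¹, h', inv_inv c⟩)
    have h4 := hS _ h3
    -- the two charts on the line
    have h5 := congrArg (aeval (![Polynomial.X, 0] : Fin 2 → Polynomial ℂ)) (hhc c⁻¹)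
    have h6 := congrArg (aeval (![Polynomial.C c, Polynomial.C c⁻¹ * Polynomial.X] :
      Fin 2 → Polynomial ℂ)) hhI
    rw [map_mul, map_pow, aeval_X, comp_aeval_apply] at h5 h6
    have h7 : (fun i => aeval (![Polynomial.X, 0] : Fin 2 → Polynomial ℂ) (chart c⁻¹ i)) =
        fun i => aeval (![Polynomial.C c, Polynomial.C c⁻¹ * Polynomial.X] :
          Fin 2 → Polynomial ℂ) (chartI i) := by
      funext i
      fin_cases i
      · simp only [chart, chartI, Fin.zero_eta, Matrix.cons_val_zero, map_mul, aeval_X,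
          Matrix.cons_val_one]
        rw [← mul_assoc, ← Polynomial.C_mul, mul_inv_cancel₀ hc0, Polynomial.C_1, one_mul]
      · simp only [chart, chartI, Fin.mk_one, Matrix.cons_val_zero, map_mul, map_add, aeval_X,
          Matrix.cons_val_one, aeval_C, zero_add]
        rw [mul_comm]
        rfl
    rw [h7, h6] at h5
    simp only [Matrix.cons_val_zero, Matrix.cons_val_one] at h5
    rw [mul_pow, mul_comm (Polynomial.C c⁻¹ ^ m), mul_assoc] at h5
    have h8 := mul_left_cancel₀ (pow_ne_zero m Polynomial.X_ne_zero) h5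
    have h9 := congrArg (Polynomial.aeval (0 : ℂ)) h8
    rw [map_mul, map_pow, Polynomial.aeval_C, comp_aeval_apply, comp_aeval_apply] at h9
    have h10 : (fun i => Polynomial.aeval (0 : ℂ) ((![Polynomial.X, 0] : Fin 2 → Polynomial ℂ) i)) =
        (0 : Fin 2 → ℂ) := by
      funext i
      fin_cases i <;> simp
    rw [h10, aeval_zero] at h9
    intro h11
    apply h4
    have h12 : constantCoeff (aeval (![X 1 + C c, X 0] : Fin 2 → MvPolynomial (Fin 2) ℂ) hI) =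
        aeval (fun i => Polynomial.aeval (0 : ℂ) ((![Polynomial.C c, Polynomial.C c⁻¹ *
          Polynomial.X] : Fin 2 → Polynomial ℂ) i)) hI := by
      have h13 := aeval_zero (S₁ := ℂ)
        (aeval (![X 1 + C c, X 0] : Fin 2 → MvPolynomial (Fin 2) ℂ) hI)
      rw [comp_aeval_apply] at h13
      refine Eq.trans h13.symm ?_
      congr 2
      funext i
      fin_cases i <;> simp
    rw [h12] at h11
    rw [h11, mul_zero] at h9
    exact h9.symm
  · simp only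
    rw [rename_eq_aeval]
    congr 2
    funext i
    fin_cases i <;> simp

end Swap

section Main

variable {R : Type} [CommRing R] (M : Meas ℂ R) (u : Rˣ)

/-- (unit) -/
theorem JJ_unit (hL : M.L = (u : R)) (hP : S_P1) (h : MvPolynomial (Fin 2) ℂ)
    (hh : constantCoeff h ≠ 0) (a₀ n₀ a₁ n₁ e : ℕ) (hn0 : 1 ≤ n₀) (hn1 : 1 ≤ n₁) :
    ((u⁻¹ : Rˣ) : R) ^ 2 * PowerSeries.coeff e (mf u a₀ n₀ * mf u a₁ n₁) =
      JJ M ((u⁻¹ : Rˣ) : R) h a₀ n₀ a₁ n₁ e Set.univ := by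
  have hv : M.L * ((u⁻¹ : Rˣ) : R) = 1 := by rw [hL, Units.mul_inv]
  have h1 : ((u⁻¹ : Rˣ) : R) ^ 2 * PowerSeries.coeff e (mf u a₀ n₀ * mf u a₁ n₁) =
      ∑ p ∈ Finset.HasAntidiagonal.antidiagonal e,
        (∑ c ∈ Ix a₀ e, if a₀ * ix c = p.1 then
          ((u⁻¹ : Rˣ) : R) ^ ((n₀ - 1) * ix c) * mo ((u⁻¹ : Rˣ) : R) c else 0) *
        (∑ c ∈ Ix a₁ e, if a₁ * ix c = p.2 then
          ((u⁻¹ : Rˣ) : R) ^ ((n₁ - 1) * ix c) * mo ((u⁻¹ : Rˣ) : R) c else 0) := by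
    rw [PowerSeries.coeff_mul, Finset.mul_sum]
    refine Finset.sum_congr rfl fun p hp => ?_
    rw [Finset.HasAntidiagonal.mem_antidiagonal] at hp
    rw [← mf_coeff_sum u a₀ n₀ e p.1 hn0 (by omega), ← mf_coeff_sum u a₁ n₁ e p.2 hn1 (by omega)]
    ring
  rw [h1, conv (Ix a₀ e) (fun c => a₀ * ix c)
    (fun c => ((u⁻¹ : Rˣ) : R) ^ ((n₀ - 1) * ix c) * mo ((u⁻¹ : Rˣ) : R) c)
    (fun l => ∑ c ∈ Ix a₁ e, if a₁ * ix c = l then
          ((u⁻¹ : Rˣ) : R) ^ ((n₁ - 1) * ix c) * mo ((u⁻¹ : Rˣ) : R) c else 0)]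
  unfold JJ
  refine Finset.sum_congr rfl fun c0 hc0 => ?_
  have hsum : ∀ {c : Option ℕ} {a : ℕ}, c ∈ Ix a e → ∀ i, c = some i → 1 ≤ i := by
    intro c a hc i hi
    rcases mem_Ix hc with ⟨-, h'⟩ | ⟨-, j, hj, -, h'⟩
    · rw [h'] at hi
      exact absurd hi (by simp)
    · rw [h', Option.some.injEq] at hi
      omega
  split_ifs with h2
  · rw [Finset.mul_sum]
    refine Finset.sum_congr rfl fun c1 hc1 => ?_
    rw [Set.univ_inter, hP M _ hv h hh c0 c1 _ (hsum hc0) (hsum hc1)]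
    by_cases h3 : a₁ * ix c1 = e - a₀ * ix c0
    · rw [if_pos h3, if_pos (by omega), if_pos (by omega), pow_add]
      ring
    · rw [if_neg h3, mul_zero]
      by_cases h4 : a₀ * ix c0 + a₁ * ix c1 ≤ e
      · rw [if_pos h4, if_neg (by omega), mul_zero]
      · rw [if_neg h4]
  · symm
    refine Finset.sum_eq_zero fun c1 hc1 => if_neg (by omega)

/-- (curveV) -/
theorem JJ_curveV (hL : M.L = (u : R)) (hP : S_P2) (h : MvPolynomial (Fin 2) ℂ)
    (h0 : constantCoeff h = 0) (h1 : constantCoeff (pderiv 1 h) ≠ 0) (a₀ n₀ e : ℕ)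
    (hn0 : 1 ≤ n₀) :
    ((u⁻¹ : Rˣ) : R) ^ 2 * PowerSeries.coeff e (mf u a₀ n₀ * mf u 1 1) =
      JJ M ((u⁻¹ : Rˣ) : R) h a₀ n₀ 0 1 e Set.univ := by
  have hv : M.L * ((u⁻¹ : Rˣ) : R) = 1 := by rw [hL, Units.mul_inv]
  have h2 : ((u⁻¹ : Rˣ) : R) ^ 2 * PowerSeries.coeff e (mf u a₀ n₀ * mf u 1 1) =
      ∑ p ∈ Finset.HasAntidiagonal.antidiagonal e,
        (∑ c ∈ Ix a₀ e, if a₀ * ix c = p.1 then
          ((u⁻¹ : Rˣ) : R) ^ ((n₀ - 1) * ix c) * mo ((u⁻¹ : Rˣ) : R) c else 0) *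
        (if p.2 = 0 then 0 else (1 - ((u⁻¹ : Rˣ) : R)) * ((u⁻¹ : Rˣ) : R) ^ p.2) := by
    rw [PowerSeries.coeff_mul, Finset.mul_sum]
    refine Finset.sum_congr rfl fun p hp => ?_
    rw [Finset.HasAntidiagonal.mem_antidiagonal] at hp
    rw [← mf_coeff_sum u a₀ n₀ e p.1 hn0 (by omega), ← mf_one_coeff]
    ring
  rw [h2, conv (Ix a₀ e) (fun c => a₀ * ix c)
    (fun c => ((u⁻¹ : Rˣ) : R) ^ ((n₀ - 1) * ix c) * mo ((u⁻¹ : Rˣ) : R) c)
    (fun l => if l = 0 then 0 else (1 - ((u⁻¹ : Rˣ) : R)) * ((u⁻¹ : Rˣ) : R) ^ l)]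
  unfold JJ
  refine Finset.sum_congr rfl fun c0 hc0 => ?_
  have hs : ∀ i, c0 = some i → 1 ≤ i := by
    intro i hi
    rcases mem_Ix hc0 with ⟨-, h'⟩ | ⟨-, j, hj, -, h'⟩
    · rw [h'] at hi
      exact absurd hi (by simp)
    · rw [h', Option.some.injEq] at hi
      omega
  rw [sum_Ix_zero]
  simp only [ix_none, mul_zero, add_zero, Nat.sub_zero, Set.univ_inter]
  split_ifs with h3 h4
  · rw [hP M _ hv h h0 h1 c0 _ hs, if_pos h4, mul_zero, mul_zero]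
  · rw [hP M _ hv h h0 h1 c0 _ hs, if_neg h4]
    ring
  · rfl

theorem JJ_eq_coeff (hB : Bas) (h1 : S_P1) (h2 : S_P2) (h3 : S_P3) (h4 : S_P4)
    (hL : M.L = (u : R)) (h : MvPolynomial (Fin 2) ℂ) (a₀ n₀ a₁ n₁ : ℕ) (Z : PowerSeries R)
    (hZ : RedZeta (mf u) (PowerSeries.C (u : R)) h a₀ n₀ a₁ n₁ Z) :
    1 ≤ n₀ → 1 ≤ n₁ → (a₀ = 0 → n₀ = 1) → (a₁ = 0 → n₁ = 1) → ∀ e : ℕ,
      ((u⁻¹ : Rˣ) : R) ^ 2 * PowerSeries.coeff e Z =
        JJ M ((u⁻¹ : Rˣ) : R) h a₀ n₀ a₁ n₁ e Set.univ := by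
  classical
  have hv : M.L * ((u⁻¹ : Rˣ) : R) = 1 := by rw [hL, Units.mul_inv]
  have hV : S_V1 := hB.v1
  have hC : S_CC := hB.cc
  have hRE : S_RE := hB.re
  have hu : {x : Ac ℂ (Fin 2) | (fun i => x (Equiv.swap (0 : Fin 2) 1 i)) ∈
      (Set.univ : Set (Ac ℂ (Fin 2)))} = Set.univ := by
    ext x
    simp
  induction hZ with
  | unit h a₀ n₀ a₁ n₁ hh =>
    intro hn0 hn1 _ _ e
    exact JJ_unit M u hL h1 h hh a₀ n₀ a₁ n₁ e hn0 hn1
  | curveV h a₀ n₀ hh0 hh1 =>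
    intro hn0 _ _ _ e
    exact JJ_curveV M u hL h2 h hh0 hh1 a₀ n₀ e hn0
  | curveU h a₁ n₁ hh0 hh1 =>
    intro _ hn1 _ _ e
    rw [JJ_swap M _ hv hV hC hRE h 0 1 a₁ n₁ e Set.univ (cyl_ops M _ hv hV).2.2.2.1]
    rw [hu]
    refine JJ_curveV M u hL h2 _ ?_ ?_ a₁ n₁ e hn1
    · rw [constantCoeff_rename, hh0]
    · have h5 := pderiv_rename (Equiv.swap (0 : Fin 2) 1).injective (0 : Fin 2) h
      rw [Equiv.swap_apply_left] at h5
      rw [h5, constantCoeff_rename]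
      exact hh1
  | blowup h a₀ n₀ a₁ n₁ m hm hc hI hhc hhI S h0S hS Zc ZI hZ0 hZc hZI ih0 ihc ihI =>
    intro hn0 hn1 ha0 ha1 e
    obtain ⟨hc', S', h5, h6, h7, h8⟩ := swap_data h m hc hI hhc hhI S hS
    have hh : constantCoeff h = 0 := by
      have h9 := congrArg constantCoeff (hhc 0)
      rw [constantCoeff_aeval, map_mul, map_pow, constantCoeff_X, zero_pow (by omega),
        zero_mul] at h9
      · exact h9
      · intro i
        fin_cases i <;> simp [chart]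
    have hD : ∑ i ∈ Finset.Icc 1 e, JJ M ((u⁻¹ : Rˣ) : R) h a₀ n₀ a₁ n₁ e (Dn ℂ i) =
        JJ M ((u⁻¹ : Rˣ) : R) hI a₀ n₀ (a₀ + a₁ + m) (n₀ + n₁) e Set.univ := by
      have h9 : ∀ i, JJ M ((u⁻¹ : Rˣ) : R) h a₀ n₀ a₁ n₁ e (Dn ℂ i) =
          JJ M ((u⁻¹ : Rˣ) : R) (rename (Equiv.swap (0 : Fin 2) 1) h) a₁ n₁ a₀ n₀ e (Up ℂ i) := by
        intro i
        rw [JJ_swap M _ hv hV hC hRE h a₀ n₀ a₁ n₁ e (Dn ℂ i) (cyl_Dn M _ hv hV hC i)]
        congr 1
      rw [Finset.sum_congr rfl fun i _ => h9 i,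
        JJ_Up M _ hv hV hC h4 (rename (Equiv.swap (0 : Fin 2) 1) h) m hc' h5 S' h6 h7 a₁ n₁ a₀ n₀ e
          hm ha1 ha0 hn1 hn0, h8,
        JJ_swap M _ hv hV hC hRE hI a₀ n₀ (a₀ + a₁ + m) (n₀ + n₁) e Set.univ
          (cyl_ops M _ hv hV).2.2.2.1, hu, add_comm a₁ a₀, add_comm n₁ n₀]
    have hE : ∑ c ∈ S.erase 0, JJ M ((u⁻¹ : Rˣ) : R) (hc c) (a₀ + a₁ + m) (n₀ + n₁) 0 1 e Set.univ =
        ∑ c ∈ S.erase 0, ((u⁻¹ : Rˣ) : R) ^ 2 * PowerSeries.coeff e (Zc c) :=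
      Finset.sum_congr rfl fun c hcS => (ihc c (Finset.mem_of_mem_erase hcS)
        (Finset.ne_of_mem_erase hcS) (by omega) le_rfl (by omega) (fun _ => rfl) e).symm
    have hlast : ∑ i ∈ Finset.Icc 1 e, (if (a₀ + a₁ + m) * i = e then
        ((u⁻¹ : Rˣ) : R) ^ ((n₀ + n₁ - 1) * i) * ((1 - ((u⁻¹ : Rˣ) : R)) * ((u⁻¹ : Rˣ) : R) ^ i) *
          (1 - (S.card : R) * ((u⁻¹ : Rˣ) : R)) else 0) =
        ((u⁻¹ : Rˣ) : R) ^ 2 * PowerSeries.coeff e
          ((PowerSeries.C (u : R) - (S.card : PowerSeries R)) * mf u (a₀ + a₁ + m) (n₀ + n₁)) := by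
      have h9 : (PowerSeries.C (u : R) - (S.card : PowerSeries R)) =
          PowerSeries.C ((u : R) - (S.card : R)) := by
        rw [map_sub, map_natCast]
      have h10 : ((u⁻¹ : Rˣ) : R) ^ 2 * (((u : R) - (S.card : R)) *
          PowerSeries.coeff e (mf u (a₀ + a₁ + m) (n₀ + n₁))) =
          (((u⁻¹ : Rˣ) : R) * PowerSeries.coeff e (mf u (a₀ + a₁ + m) (n₀ + n₁))) *
            (((u⁻¹ : Rˣ) : R) * (u : R) - (S.card : R) * ((u⁻¹ : Rˣ) : R)) := by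
        ring
      rw [h9, PowerSeries.coeff_C_mul, h10, Units.inv_mul,
        mf_coeff_sum u (a₀ + a₁ + m) (n₀ + n₁) e e (by omega) le_rfl, sum_Ix_pos (by omega),
        Finset.sum_mul]
      refine Finset.sum_congr rfl fun i _ => ?_
      simp only [ix_some, mo]
      split_ifs
      · rfl
      · rw [zero_mul]
    rw [JJ_part M _ hv hV hC h hh a₀ n₀ a₁ n₁ e, Finset.sum_add_distrib, Finset.sum_add_distrib,
      JJ_Up M _ hv hV hC h4 h m hc hhc S h0S hS a₀ n₀ a₁ n₁ e hm ha0 ha1 hn0 hn1,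
      JJ_Di_sum M _ hv hV hC h4 h m hc hhc S h0S hS a₀ n₀ a₁ n₁ e hm ha0 ha1 hn0 hn1, hD, hE,
      hlast, ← ih0 (by omega) hn1 (by omega) ha1 e, ← ihI hn0 (by omega) ha0 (by omega) e,
      map_add, map_add, map_sum, ← Finset.add_sum_erase S _ h0S, ← Finset.mul_sum]
    ring

end Main

theorem t_P5 : Bas → S_P1 → S_P2 → S_P3 → S_P4 → S_P5 := by
  intro hB h1 h2 h3 h4 K _ R _ M u hL h a₀ n₀ a₁ n₁ Z hZ hn0 hn1 ha0 ha1 e
  rw [JJ_eq_coeff M u hB h1 h2 h3 h4 hL h a₀ n₀ a₁ n₁ Z hZ hn0 hn1 ha0 ha1 e]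
  unfold JJ
  simp only [Set.univ_inter]

end Pool.Agent.J4H2.YJ
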